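import Mathlib
import Pool.Agent.R259.M38

set_option autoImplicit false

namespace Pool.Agent.Results.MP_38d282_an.MultiplierSequence

open Polynomial

/-- A real polynomial has only real zeros (the zero polynomial is admitted). -/
def OnlyRealZeros (p : ℝ[X]) : Prop := p = 0 ∨ ∀ z : ℂ, aeval z p = 0 → z.im = 0

/-- `γ` is a multiplier sequence: for every real polynomial `p = ∑ a_k x^k` with only real zeros,
`∑ γ_k a_k x^k` has only real zeros. -/
def IsMultiplierSequence (γ : ℕ → ℝ) : Prop :=
  ∀ p : ℝ[X], OnlyRealZeros p →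
    OnlyRealZeros (∑ k ∈ Finset.range (p.natDegree + 1), C (γ k * p.coeff k) * X ^ k)

/-- The sequence `1 / ((k+1)^(k+1) k!)` is a multiplier sequence. -/
theorem result :
    IsMultiplierSequence (fun k => 1 / (((k : ℝ) + 1) ^ (k + 1) * (k.factorial : ℝ))) :=
  Pool.Agent.R259.ms38

end Pool.Agent.Results.MP_38d282_an.MultiplierSequence
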